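import Pool.Agent.W979.TE.Defs3

/-!
# Project TE3 (helper979), part BC: large connectors on the side of the centre
-/

set_option autoImplicit false

open Classical

namespace Pool.Agent.W465.TE3.BC

open Pool.Agent.W715.BC Pool.Agent.W979.TE3

/-- dependent product -/
noncomputable def dp {α β : Type} [Fintype α] [Fintype β] (S : Finset α) (Q : α → Finset β) :
    Finset (α × β) := Finset.univ.filter (fun w => w.1 ∈ S ∧ w.2 ∈ Q w.1)

theorem mem_dp {α β : Type} [Fintype α] [Fintype β] (S : Finset α) (Q : α → Finset β)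
    (w : α × β) : w ∈ dp S Q ↔ w.1 ∈ S ∧ w.2 ∈ Q w.1 := by
  simp [dp]

theorem card_dp {α β : Type} [Fintype α] [Fintype β] (S : Finset α) (Q : α → Finset β) :
    (dp S Q).card = ∑ a ∈ S, (Q a).card := by
  rw [← Finset.card_sigma]
  refine Finset.card_bij (fun w _ => ⟨w.1, w.2⟩) ?_ ?_ ?_
  · intro w hw
    rw [mem_dp] at hw
    exact Finset.mem_sigma.2 hw
  · rintro ⟨a, b⟩ _ ⟨a', b'⟩ _ h
    simp only [Sigma.mk.injEq] at h
    obtain ⟨h1, h2⟩ := h
    subst h1
    rw [eq_of_heq h2]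
  · rintro ⟨a, b⟩ h
    exact ⟨(a, b), (mem_dp _ _ _).2 (Finset.mem_sigma.1 h), rfl⟩

section
variable {A B : Type} [Fintype A] [Fintype B] (r : A → B → Prop)

/-- paths of length two from a -/
noncomputable def WW (a : A) : Finset (B × A) :=
  dp (Finset.univ.filter (fun b : B => r a b)) (fun b => Finset.univ.filter (fun a' : A => r a' b))

theorem mem_WW (a : A) (w : B × A) : w ∈ WW r a ↔ r a w.1 ∧ r w.2 w.1 := by
  simp [WW, mem_dp]

theorem WW_lb {D K : ℕ} (h : Reg r D K) (a : A) : D * D ≤ (WW r a).card := by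
  rw [WW, card_dp]
  calc D * D ≤ (Finset.univ.filter (fun b : B => r a b)).card * D :=
        Nat.mul_le_mul_right _ (h.la a)
    _ = ∑ b ∈ Finset.univ.filter (fun b : B => r a b), D := by
        rw [Finset.sum_const, smul_eq_mul]
    _ ≤ _ := Finset.sum_le_sum fun b _ => h.lb b

theorem WW_ub {D K : ℕ} (h : Reg r D K) (a : A) : (WW r a).card ≤ (K * D) * (K * D) := by
  rw [WW, card_dp]
  calc _ ≤ ∑ b ∈ Finset.univ.filter (fun b : B => r a b), K * D :=
        Finset.sum_le_sum fun b _ => h.ub b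
    _ = (Finset.univ.filter (fun b : B => r a b)).card * (K * D) := by
        rw [Finset.sum_const, smul_eq_mul]
    _ ≤ _ := Nat.mul_le_mul_right _ (h.ua a)

/-- extensions of the star at a_i -/
noncomputable def EE (q : ℕ) (a : A) : Finset (Fin q → B × A) :=
  Fintype.piFinset (fun _ => WW r a)

theorem mem_EE (q : ℕ) (a : A) (e : Fin q → B × A) :
    e ∈ EE r q a ↔ ∀ l, r a (e l).1 ∧ r (e l).2 (e l).1 := by
  simp [EE, mem_WW, Fintype.mem_piFinset]

theorem EE_lb {D K : ℕ} (h : Reg r D K) (q : ℕ) (a : A) : (D * D) ^ q ≤ (EE r q a).card := by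
  rw [EE, Fintype.card_piFinset, Finset.prod_const, Finset.card_univ, Fintype.card_fin]
  exact Nat.pow_le_pow_left (WW_lb r h a) q

theorem EE_ub {D K : ℕ} (h : Reg r D K) (q : ℕ) (a : A) :
    (EE r q a).card ≤ ((K * D) * (K * D)) ^ q := by
  rw [EE, Fintype.card_piFinset, Finset.prod_const, Finset.card_univ, Fintype.card_fin]
  exact Nat.pow_le_pow_left (WW_ub r h a) q

variable {s q : ℕ} (i : Fin s)

/-- roots outside a_i -/
abbrev RR (A : Type) {s : ℕ} (q : ℕ) (i : Fin s) : Type :=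
  {x : Option (Fin s) // x ≠ some i} → Fin q → A

/-- restriction -/
def res (ρ : Option (Fin s) → Fin q → A) : RR A q i := fun x => ρ x.1

/-- positions of the centre -/
noncomputable def X1 (L M1 : ℕ) (ρ : RR A q i) : Finset A :=
  Finset.univ.filter (fun a => ∃ z : Cop A B s q, CC r L M1 z ∧ z.1 none = a ∧
    ∀ x, z.2.1 x.1 = ρ x)

theorem Xc_eq (L M1 : ℕ) (ρ : Option (Fin s) → Fin q → A) :
    Xc r L M1 i ρ = X1 r i L M1 (res i ρ) := by
  unfold Xc X1 res
  congr 1
  funext a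
  simp only [Subtype.forall]

/-- replacement of the star at a_i -/
def rep (z : Cop A B s q) (b : B) (a : A) (e : Fin q → B × A) : Cop A B s q :=
  (Function.update z.1 (some i) a, Function.update z.2.1 (some i) (fun l => (e l).2),
    Function.update z.2.2.1 i b, Function.update z.2.2.2 (some i) (fun l => (e l).1))

theorem Hm_rep (z : Cop A B s q) (hz : Hm r z) (b : B) (a : A) (e : Fin q → B × A)
    (h1 : r (z.1 none) b) (h2 : r a b) (he : e ∈ EE r q a) : Hm r (rep i z b a e) := by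
  rw [mem_EE] at he
  obtain ⟨z1, z2, z3, z4⟩ := hz
  refine ⟨?_, ?_, ?_, ?_⟩
  · intro i'
    show r (Function.update z.1 (some i) a none) (Function.update z.2.2.1 i b i')
    rw [Function.update_of_ne (by simp)]
    by_cases h : i' = i
    · subst h; rw [Function.update_self]; exact h1
    · rw [Function.update_of_ne h]; exact z1 i'
  · intro i'
    show r (Function.update z.1 (some i) a (some i')) (Function.update z.2.2.1 i b i')
    by_cases h : i' = i
    · subst h; rw [Function.update_self, Function.update_self]; exact h2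
    · rw [Function.update_of_ne h, Function.update_of_ne (by simpa using h)]; exact z2 i'
  · intro x l
    show r (Function.update z.1 (some i) a x)
      (Function.update z.2.2.2 (some i) (fun l => (e l).1) x l)
    by_cases h : x = some i
    · subst h; rw [Function.update_self, Function.update_self]; exact (he l).1
    · rw [Function.update_of_ne h, Function.update_of_ne h]; exact z3 x l
  · intro x l
    show r (Function.update z.2.1 (some i) (fun l => (e l).2) x l)
      (Function.update z.2.2.2 (some i) (fun l => (e l).1) x l)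
    by_cases h : x = some i
    · subst h; rw [Function.update_self, Function.update_self]; exact (he l).2
    · rw [Function.update_of_ne h, Function.update_of_ne h]; exact z4 x l

/-- step 1 -/
theorem step1 {D K : ℕ} (h : Reg r D K) (L M1 : ℕ) :
    (∑ ρ : RR A q i, (X1 r i L M1 ρ).card) * D ^ (2 * q + 2) ≤
      (Finset.univ.filter (fun z : Cop A B s q => Hm r z)).card := by
  let P : Finset (RR A q i × A × (B × A) × (Fin q → B × A)) :=
    dp Finset.univ (fun ρ => dp (X1 r i L M1 ρ) (fun c => dp (WW r c) (fun w => EE r q w.2)))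
  have hP : (∑ ρ : RR A q i, (X1 r i L M1 ρ).card) * D ^ (2 * q + 2) ≤ P.card := by
    show _ ≤ (dp _ _).card
    rw [card_dp, Finset.sum_mul]
    refine Finset.sum_le_sum fun ρ _ => ?_
    rw [card_dp]
    calc (X1 r i L M1 ρ).card * D ^ (2 * q + 2) = ∑ c ∈ X1 r i L M1 ρ, D ^ (2 * q + 2) := by
          rw [Finset.sum_const, smul_eq_mul]
      _ ≤ _ := by
          refine Finset.sum_le_sum fun c _ => ?_
          rw [card_dp]
          calc D ^ (2 * q + 2) = (D * D) * (D * D) ^ q := by ring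
            _ ≤ (WW r c).card * (D * D) ^ q := Nat.mul_le_mul_right _ (WW_lb r h c)
            _ = ∑ w ∈ WW r c, (D * D) ^ q := by rw [Finset.sum_const, smul_eq_mul]
            _ ≤ _ := Finset.sum_le_sum fun w _ => EE_lb r h q w.2
  refine hP.trans ?_
  have hex : ∀ (ρ : RR A q i) (c : A), c ∈ X1 r i L M1 ρ → ∃ z : Cop A B s q, CC r L M1 z ∧
      z.1 none = c ∧ ∀ x, z.2.1 x.1 = ρ x := by
    intro ρ c hc
    simpa [X1] using hc
  rcases isEmpty_or_nonempty (Cop A B s q) with hE | hN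
  · have : P = ∅ := by
      rw [Finset.eq_empty_iff_forall_notMem]
      rintro ⟨ρ, c, w, e⟩ hp
      simp only [P, mem_dp] at hp
      obtain ⟨z, -⟩ := hex ρ c hp.2.1
      exact hE.elim z
    rw [this]; simp
  choose! zz hz using hex
  refine Finset.card_le_card_of_injOn
    (fun p => rep i (zz p.1 p.2.1) p.2.2.1.1 p.2.2.1.2 p.2.2.2) ?_ ?_
  · rintro ⟨ρ, c, ⟨b, a⟩, e⟩ hp
    have hp' : (ρ, c, (b, a), e) ∈ P := hp
    simp only [P, mem_dp, Finset.mem_univ, true_and, mem_WW] at hp'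
    obtain ⟨hc, ⟨hb, ha⟩, he⟩ := hp'
    obtain ⟨hz1, hz2, hz3⟩ := hz ρ c hc
    refine Finset.mem_coe.2 (Finset.mem_filter.2 ⟨Finset.mem_univ _, ?_⟩)
    exact Hm_rep r i _ hz1.1 b a e (by rw [hz2]; exact hb) ha he
  · rintro ⟨ρ, c, ⟨b, a⟩, e⟩ hp ⟨ρ', c', ⟨b', a'⟩, e'⟩ hp' heq
    have h1 : (ρ, c, (b, a), e) ∈ P := hp
    have h2 : (ρ', c', (b', a'), e') ∈ P := hp'
    simp only [P, mem_dp, Finset.mem_univ, true_and, mem_WW] at h1 h2
    obtain ⟨-, hz2, hz3⟩ := hz ρ c h1.1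
    obtain ⟨-, hz2', hz3'⟩ := hz ρ' c' h2.1
    simp only [rep, Prod.mk.injEq] at heq
    obtain ⟨e1, e2, e3, e4⟩ := heq
    have ec : c = c' := by
      have := congrFun e1 none
      rw [Function.update_of_ne (by simp), Function.update_of_ne (by simp), hz2, hz2'] at this
      exact this
    have eρ : ρ = ρ' := by
      funext x
      have := congrFun e2 x.1
      rw [Function.update_of_ne x.2, Function.update_of_ne x.2, hz3, hz3'] at this
      exact this
    have ea : a = a' := by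
      have := congrFun e1 (some i)
      rwa [Function.update_self, Function.update_self] at this
    have eb : b = b' := by
      have := congrFun e3 i
      rwa [Function.update_self, Function.update_self] at this
    have ee : e = e' := by
      funext l
      have t1 := congrFun (congrFun e2 (some i)) l
      have t2 := congrFun (congrFun e4 (some i)) l
      rw [Function.update_self, Function.update_self] at t1 t2
      exact Prod.ext t2 t1
    subst ec eρ ea eb ee
    rfl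


/-- connectors of large degree -/
noncomputable def bad (D L M1 M0 : ℕ) (ν : ℝ) (ρ : RR A q i) : Finset B :=
  Finset.univ.filter (fun y => (M0 : ℝ) + ν / D * ((X1 r i L M1 ρ).card : ℝ) <
    (mm r (X1 r i L M1 ρ) y : ℝ))

/-- step 3 -/
theorem step3 {D t M0 : ℕ} (hD : 0 < D) (hE : E1P s q t M0) (hS : ¬ SBlow r s q t) (M1 : ℕ)
    (ν : ℝ) (hν : 0 < ν) (ρ : RR A q i) :
    ((∑ y ∈ bad r i D (LT s q t) M1 M0 ν ρ, mm r (X1 r i (LT s q t) M1 ρ) y : ℕ) : ℝ) ≤
      2 * (LT s q t : ℝ) * D / ν * ((X1 r i (LT s q t) M1 ρ).card : ℝ) := by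
  set X := X1 r i (LT s q t) M1 ρ with hX
  have hD' : (0 : ℝ) < D := by exact_mod_cast hD
  by_cases h0 : X.card = 0
  · have : ∀ y, mm r X y = 0 := by
      intro y
      unfold mm
      rw [Finset.card_eq_zero] at h0 ⊢
      rw [h0]; simp
    rw [h0]
    simp [this]
  have hXc : (0 : ℝ) < X.card := by
    have : 0 < X.card := Nat.pos_of_ne_zero h0
    exact_mod_cast this
  have h1 := hE A B r X hS
  have h2 : ∀ y ∈ bad r i D (LT s q t) M1 M0 ν ρ, (mm r X y : ℝ) ≤
      (D / (ν * X.card)) * ((mm r X y : ℝ)) ^ 2 := by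
    intro y hy
    have hy' := (Finset.mem_filter.1 hy).2
    rw [← hX] at hy'
    have h3 : ν / D * (X.card : ℝ) ≤ (mm r X y : ℝ) := by
      have : (0 : ℝ) ≤ M0 := Nat.cast_nonneg _
      linarith
    have h4 : (0 : ℝ) ≤ (mm r X y : ℝ) := Nat.cast_nonneg _
    rw [div_mul_eq_mul_div, le_div_iff₀ (by positivity)]
    have h5 : ν * X.card ≤ mm r X y * D := by
      rw [div_mul_eq_mul_div, div_le_iff₀ hD'] at h3
      exact h3
    calc (mm r X y : ℝ) * (ν * X.card) ≤ mm r X y * (mm r X y * D) :=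
          mul_le_mul_of_nonneg_left h5 h4
      _ = D * (mm r X y : ℝ) ^ 2 := by ring
  have h6 : bad r i D (LT s q t) M1 M0 ν ρ ⊆ Finset.univ.filter (fun y : B =>
      M0 ≤ (X.filter (fun x => r x y)).card) := by
    intro y hy
    have hy' := (Finset.mem_filter.1 hy).2
    rw [← hX] at hy'
    refine Finset.mem_filter.2 ⟨Finset.mem_univ _, ?_⟩
    have : (M0 : ℝ) ≤ (mm r X y : ℝ) := by
      have : 0 ≤ ν / D * (X.card : ℝ) := by positivity
      linarith
    exact_mod_cast this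
  have h7 : ((∑ y ∈ bad r i D (LT s q t) M1 M0 ν ρ, (mm r X y) ^ 2 : ℕ) : ℝ) ≤
      2 * (LT s q t : ℝ) * (X.card : ℝ) ^ 2 := by
    have : ∑ y ∈ bad r i D (LT s q t) M1 M0 ν ρ, (mm r X y) ^ 2 ≤ 2 * LT s q t * X.card ^ 2 :=
      (Finset.sum_le_sum_of_subset h6).trans h1
    exact_mod_cast this
  push_cast at h7 ⊢
  calc ∑ y ∈ bad r i D (LT s q t) M1 M0 ν ρ, (mm r X y : ℝ) ≤
      ∑ y ∈ bad r i D (LT s q t) M1 M0 ν ρ, (D / (ν * X.card)) * ((mm r X y : ℝ)) ^ 2 :=
        Finset.sum_le_sum h2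
    _ = (D / (ν * X.card)) * ∑ y ∈ bad r i D (LT s q t) M1 M0 ν ρ, ((mm r X y : ℝ)) ^ 2 := by
        rw [Finset.mul_sum]
    _ ≤ (D / (ν * X.card)) * (2 * (LT s q t : ℝ) * (X.card : ℝ) ^ 2) :=
        mul_le_mul_of_nonneg_left h7 (by positivity)
    _ = 2 * (LT s q t : ℝ) * D / ν * (X.card : ℝ) := by
        field_simp

/-- step 2 -/
theorem step2 {D K : ℕ} (h : Reg r D K) (hK : S_KAP) (L M1 M0 : ℕ) (ν : ℝ) :
    (Finset.univ.filter (fun z : Cop A B s q => CC r L M1 z ∧
      (M0 : ℝ) + ν / D * ((Xc r L M1 i z.2.1).card : ℝ) <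
        (mm r (Xc r L M1 i z.2.1) (z.2.2.1 i) : ℝ))).card ≤
      (M1 ^ s * L ^ hh s q) * ∑ ρ : RR A q i, (∑ y ∈ bad r i D L M1 M0 ν ρ,
        mm r (X1 r i L M1 ρ) y) * ((K * D) * ((K * D) * (K * D)) ^ q) := by
  set T := Finset.univ.filter (fun z : Cop A B s q => CC r L M1 z ∧
      (M0 : ℝ) + ν / D * ((Xc r L M1 i z.2.1).card : ℝ) <
        (mm r (Xc r L M1 i z.2.1) (z.2.2.1 i) : ℝ)) with hT
  let J : Finset (RR A q i × B × A × A × (Fin q → B × A)) :=
    dp Finset.univ (fun ρ => dp (bad r i D L M1 M0 ν ρ) (fun y =>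
      dp ((X1 r i L M1 ρ).filter (fun x => r x y)) (fun _ =>
        dp (Finset.univ.filter (fun a : A => r a y)) (fun a => EE r q a))))
  have hJ : J.card ≤ ∑ ρ : RR A q i, (∑ y ∈ bad r i D L M1 M0 ν ρ,
        mm r (X1 r i L M1 ρ) y) * ((K * D) * ((K * D) * (K * D)) ^ q) := by
    show (dp _ _).card ≤ _
    rw [card_dp]
    refine Finset.sum_le_sum fun ρ _ => ?_
    rw [card_dp, Finset.sum_mul]
    refine Finset.sum_le_sum fun y _ => ?_
    rw [card_dp, Finset.sum_const, smul_eq_mul]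
    refine Nat.mul_le_mul_left _ ?_
    rw [card_dp]
    calc _ ≤ ∑ a ∈ Finset.univ.filter (fun a : A => r a y), ((K * D) * (K * D)) ^ q :=
          Finset.sum_le_sum fun a _ => EE_ub r h q a
      _ = deg2 r y * ((K * D) * (K * D)) ^ q := by rw [Finset.sum_const, smul_eq_mul]; rfl
      _ ≤ _ := Nat.mul_le_mul_right _ (h.ub y)
  let F : Cop A B s q → RR A q i × B × A × A × (Fin q → B × A) := fun z =>
    (res i z.2.1, z.2.2.1 i, z.1 none, z.1 (some i),
      fun l => (z.2.2.2 (some i) l, z.2.1 (some i) l))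
  have hF : T.image F ⊆ J := by
    intro w hw
    obtain ⟨z, hz, rfl⟩ := Finset.mem_image.1 hw
    obtain ⟨hc, hb⟩ := (Finset.mem_filter.1 hz).2
    rw [Xc_eq] at hb
    obtain ⟨z1, z2, z3, z4⟩ := hc.1
    simp only [J, F, mem_dp, Finset.mem_univ, true_and, Finset.mem_filter, mem_EE]
    refine ⟨Finset.mem_filter.2 ⟨Finset.mem_univ _, hb⟩, ⟨?_, z1 i⟩, z2 i, fun l =>
      ⟨z3 _ l, z4 _ l⟩⟩
    exact Finset.mem_filter.2 ⟨Finset.mem_univ _, z, hc, rfl, fun x => rfl⟩
  have hfib : ∀ w ∈ T.image F, (T.filter (fun z => F z = w)).card ≤ M1 ^ s * L ^ hh s q := by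
    intro w hw
    obtain ⟨z0, hz0, rfl⟩ := Finset.mem_image.1 hw
    refine le_trans (Finset.card_le_card ?_) (hK s q L M1 A B r z0.2.1 none (z0.1 none))
    intro z hz
    obtain ⟨hz1, hz2⟩ := Finset.mem_filter.1 hz
    obtain ⟨hc, -⟩ := (Finset.mem_filter.1 hz1).2
    refine Finset.mem_filter.2 ⟨Finset.mem_univ _, hc, ?_, ?_⟩
    · simp only [F, Prod.mk.injEq] at hz2
      obtain ⟨e1, -, -, -, e2⟩ := hz2
      funext x l
      by_cases hx : x = some i
      · subst hx
        exact (Prod.ext_iff.1 (congrFun e2 l)).2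
      · exact congrFun (congrFun e1 ⟨x, hx⟩) l
    · simp only [F, Prod.mk.injEq] at hz2
      exact hz2.2.2.1
  calc T.card ≤ (M1 ^ s * L ^ hh s q) * (T.image F).card :=
        Finset.card_le_mul_card_image T _ hfib
    _ ≤ (M1 ^ s * L ^ hh s q) * J.card := Nat.mul_le_mul_left _ (Finset.card_le_card hF)
    _ ≤ _ := Nat.mul_le_mul_left _ hJ

end

theorem main : S_KAP → S_HC → S_BC := by
  intro hK hH s q t K M1 M0 hs hq hK0 hE
  refine ⟨2 * ((M1 ^ s * LT s q t ^ hh s q : ℕ) : ℝ) * LT s q t *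
    (K : ℝ) ^ (2 * q + 1 + 2 * hh s q), ?_⟩
  intro ν hν A B _ _ _ r D i hR hD hS
  have hD' : (0 : ℝ) < D := by exact_mod_cast hD
  set κ : ℕ := M1 ^ s * LT s q t ^ hh s q with hκ
  set L := LT s q t with hL
  have h2 := step2 r (q := q) i (D := D) (K := K) hR hK L M1 M0 ν
  have h1 := step1 r (q := q) i hR L M1
  have hhom := (hH s q K A B r D hR).2
  have h2' : ((Finset.univ.filter (fun z : Cop A B s q => CC r L M1 z ∧
      (M0 : ℝ) + ν / D * ((Xc r L M1 i z.2.1).card : ℝ) <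
        (mm r (Xc r L M1 i z.2.1) (z.2.2.1 i) : ℝ))).card : ℝ) ≤
      (κ : ℝ) * ∑ ρ : RR A q i, ((∑ y ∈ bad r i D L M1 M0 ν ρ,
        mm r (X1 r i L M1 ρ) y : ℕ) : ℝ) * (((K : ℝ) * D) * (((K : ℝ) * D) * (K * D)) ^ q) := by
    exact_mod_cast h2
  refine h2'.trans ?_
  have h3 : ∑ ρ : RR A q i, ((∑ y ∈ bad r i D L M1 M0 ν ρ,
        mm r (X1 r i L M1 ρ) y : ℕ) : ℝ) * (((K : ℝ) * D) * (((K : ℝ) * D) * (K * D)) ^ q) ≤
      ∑ ρ : RR A q i, (2 * (L : ℝ) * D / ν * ((X1 r i L M1 ρ).card : ℝ)) *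
        (((K : ℝ) * D) * (((K : ℝ) * D) * (K * D)) ^ q) :=
    Finset.sum_le_sum fun ρ _ => mul_le_mul_of_nonneg_right
      (step3 r i hD hE hS M1 ν hν ρ) (by positivity)
  have h4 : (((∑ ρ : RR A q i, (X1 r i L M1 ρ).card) : ℕ) : ℝ) * (D : ℝ) ^ (2 * q + 2) ≤
      (Fintype.card A : ℝ) * ((K : ℝ) * D) ^ (2 * hh s q) := by
    exact_mod_cast h1.trans hhom
  push_cast at h4
  calc (κ : ℝ) * ∑ ρ : RR A q i, ((∑ y ∈ bad r i D L M1 M0 ν ρ,
        mm r (X1 r i L M1 ρ) y : ℕ) : ℝ) * (((K : ℝ) * D) * (((K : ℝ) * D) * (K * D)) ^ q)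
      ≤ (κ : ℝ) * ∑ ρ : RR A q i, (2 * (L : ℝ) * D / ν * ((X1 r i L M1 ρ).card : ℝ)) *
        (((K : ℝ) * D) * (((K : ℝ) * D) * (K * D)) ^ q) :=
        mul_le_mul_of_nonneg_left h3 (Nat.cast_nonneg _)
    _ = (κ : ℝ) * (2 * (L : ℝ) / ν) * (K : ℝ) ^ (2 * q + 1) *
        ((∑ ρ : RR A q i, ((X1 r i L M1 ρ).card : ℝ)) * (D : ℝ) ^ (2 * q + 2)) := by
        rw [← Finset.sum_mul, ← Finset.mul_sum]
        have e : (((K : ℝ) * D) * (((K : ℝ) * D) * (K * D)) ^ q) =
            (K : ℝ) ^ (2 * q + 1) * (D : ℝ) ^ (2 * q + 1) := by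
          rw [← mul_pow, pow_succ, pow_mul]
          ring
        rw [e]
        have e2 : (D : ℝ) ^ (2 * q + 2) = (D : ℝ) ^ (2 * q + 1) * D := by ring
        rw [e2]
        ring
    _ ≤ (κ : ℝ) * (2 * (L : ℝ) / ν) * (K : ℝ) ^ (2 * q + 1) *
        ((Fintype.card A : ℝ) * ((K : ℝ) * D) ^ (2 * hh s q)) :=
        mul_le_mul_of_nonneg_left h4 (by positivity)
    _ = 2 * (κ : ℝ) * L * (K : ℝ) ^ (2 * q + 1 + 2 * hh s q) / ν * (Fintype.card A : ℝ) *
        (D : ℝ) ^ (2 * hh s q) := by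
        rw [mul_pow, pow_add (K : ℝ) (2 * q + 1)]
        ring

end Pool.Agent.W465.TE3.BC
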